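import Pool.Agent.H37.RW2.Def
import Pool.Agent.H18.PN.Prb
import Pool.Agent.H68.OWN.Nh

/-!
# The rows of a pair, in the form of `pair_rb`

`PsL`: the members of the family of pairs are the labels of `c r`, `c (r + 1)` of one label of the whole
chain, and the code determines the context of the chain. `rw2_N`, `rw2_U`: the rows `RowN`, `RowU`
give the rows `Rw2`.
-/

set_option autoImplicit false

namespace Pool.RW37

open Finset Real MvPolynomial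
open Pool.Agent.H49.Ent Pool.Agent.H32.Dense Pool.STK Pool.KA Pool.KSAT Pool.K2S Pool.PB Pool.GEN
open Pool.S6C Pool.RCD Pool.LA91 Pool.OWN68 Pool.CHT Pool.AJX Pool.PN18
open Pool.GRD (LbP Pb_mono_pos)
open Pool.UNJ (ceI Tub)
open Pool.BFL (Pb)

variable {m J : ℕ}

/-- **The pairs** are the labels of `c r` and `c (r + 1)` of one label of the chain. -/
def PsL (Ψ : Fm2 m) (c : ℕ → Fin m) (r₀ r K : ℕ) (e : ℝ) (E : ℕ → ℝ) (v lam : ℝ)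
    (rd p n : ℕ → ℝ) : Prop :=
  ∀ (J : ℕ) (F : Fam m J) (A : F.Ω → Prop) (V C : Type) (z : PtT F → V) (z' : LnT F → V)
    (G₁ G₂ : V → MvPolynomial (Option (Fin m)) ℝ) (cc : LnT F → C), Ψ J F A V C z z' G₁ G₂ cc →
    ∃ g : V → ℕ → MvPolynomial (Option (Fin m)) ℝ, LbX F c r₀ (r + 2) K e E v rd p A z z' g ∧
      G₁ = (fun y => g y r) ∧ G₂ = (fun y => g y (r + 1)) ∧
      ∃ φ : C → (Fin m → ℤ × ℤ) × (ℕ → ℕ → ℤ), ∀ x,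
        ctxN F c r₀ r ⌊v * J⌋₊ ⌊(v + lam) * J⌋₊ K z' g n x = φ (cc x)

theorem bas_pos' {S : PCl m} {C₀ : ℝ} (htm : TmC S C₀) : Bas S (fun _ F A => 0 < Pe F.p A) :=
  Bas.mono 0 (Pool.GRW.tmc_bas htm one_pos) fun _ _ _ _ h1 => h1.1

/-- The context of the chain, from the code. -/
theorem cx_few {F : Fam m J} {c : ℕ → Fin m} {r₀ r K : ℕ} {v lam e : ℝ} {E rd p n : ℕ → ℝ}
    {A : F.Ω → Prop} {V C : Type} {z : PtT F → V} {z' : LnT F → V}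
    {g : V → ℕ → MvPolynomial (Option (Fin m)) ℝ} (hv0 : 0 ≤ v) (hv : v ≤ 1)
    (hL : LbX F c r₀ (r + 2) K e E v rd p A z z' g) {cc : LnT F → C}
    {φ : C → (Fin m → ℤ × ℤ) × (ℕ → ℕ → ℤ)}
    (hφ : ∀ x, ctxN F c r₀ r ⌊v * J⌋₊ ⌊(v + lam) * J⌋₊ K z' g n x = φ (cc x))
    {q : F.Ω → ℝ} (hq : IsLaw q) {T : Type} (Y : F.Ω → T)
    (hY : ∀ ω ω', Y ω = Y ω' → z' (slam F ⌊v * J⌋₊ ω) = z' (slam F ⌊v * J⌋₊ ω') ∧
      cc (slam F ⌊v * J⌋₊ ω) = cc (slam F ⌊v * J⌋₊ ω') ∧ F.W ω = F.W ω')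
    {D : Type} (X : F.Ω → D) {T' : Type} (Y' : F.Ω → T')
    (hY' : ∀ ω ω', Y ω = Y ω' → cx F c r₀ r z' ⌊v * J⌋₊ g n (v + lam) ω =
      cx F c r₀ r z' ⌊v * J⌋₊ g n (v + lam) ω' → Y' ω = Y' ω') :
    CH q X Y ≤ CH q X Y' + (r * Real.log (4 * (K + 3) + 3) + m * Real.log 7) := by
  have h0 := hq.nonneg
  have hvJ : ⌊v * J⌋₊ ≤ J := by
    refine Nat.floor_le_of_le ?_
    have : v * J ≤ 1 * J := mul_le_mul_of_nonneg_right hv (Nat.cast_nonneg _)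
    linarith
  have g1 := CH_le_add h0 X (fun ω => (hts F c r₀ r z' ⌊v * J⌋₊ g n ω,
    bI ((range r₀).image c) (v + lam) J F ω)) Y
  have g2 : CH q (fun ω => (hts F c r₀ r z' ⌊v * J⌋₊ g n ω,
      bI ((range r₀).image c) (v + lam) J F ω)) Y ≤
      r * Real.log (4 * (K + 3) + 3) + m * Real.log 7 := by
    refine (CH_subadd h0 _ _ Y).trans (add_le_add ?_ ?_)
    · refine hts_few (q' := q) hvJ (fun l hl0 hl y => (hL l hl0 (by omega)).deg y) hq Y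
        (fun ω => ctxN F c r₀ r ⌊v * J⌋₊ ⌊(v + lam) * J⌋₊ K z' g n (slam F ⌊v * J⌋₊ ω))
        (fun ω => rfl) fun ω ω' e => ?_
      obtain ⟨-, k2, k3⟩ := hY ω ω' e
      refine ⟨(Prod.ext_iff.mp k3).1, ?_⟩
      show ctxN F c r₀ r ⌊v * J⌋₊ ⌊(v + lam) * J⌋₊ K z' g n (slam F ⌊v * J⌋₊ ω) = _
      rw [hφ, hφ, k2]
    · refine le_trans ?_ (cV0_pos hq ((range r₀).image c) hvJ ⌊(v + lam) * J⌋₊)
      refine CH_mono_cond h0 fun ω ω' _ _ e => ?_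
      obtain ⟨-, k2, k3⟩ := hY ω ω' e
      refine Prod.ext ?_ k3
      have k4 : ctxN F c r₀ r ⌊v * J⌋₊ ⌊(v + lam) * J⌋₊ K z' g n (slam F ⌊v * J⌋₊ ω) =
          ctxN F c r₀ r ⌊v * J⌋₊ ⌊(v + lam) * J⌋₊ K z' g n (slam F ⌊v * J⌋₊ ω') := by
        rw [hφ, hφ, k2]
      exact (Prod.ext_iff.mp k4).1
  have g3 : CH q X (fun ω => ((hts F c r₀ r z' ⌊v * J⌋₊ g n ω,
      bI ((range r₀).image c) (v + lam) J F ω), Y ω)) ≤ CH q X Y' := by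
    refine CH_mono_cond h0 fun ω ω' _ _ e => ?_
    have k1 := Prod.ext_iff.mp e
    have k2 := Prod.ext_iff.mp k1.1
    obtain ⟨k3, -, k4⟩ := hY ω ω' k1.2
    exact hY' ω ω' k1.2 (Prod.ext k3 (Prod.ext k2.1 (Prod.ext k2.2 k4)))
  linarith

/-- **The rows of the second place**, in the form of `pair_rb`. -/
theorem rw2_N {S : PCl m} {C₀ : ℝ} (htm : TmC S C₀) {Ψ : Fm2 m} {c : ℕ → Fin m} {r₀ r K : ℕ}
    {e e₀ : ℝ} {E : ℕ → ℝ} {v lam : ℝ} {rd p n : ℕ → ℝ} (hv0 : 0 ≤ v) (hv : v ≤ 1)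
    (hΨ : PsL Ψ c r₀ r K e E v lam rd p n) (he : 0 < e) (hle : e ≤ e₀) {α₁ α₂ q h d d' : ℝ}
    {N₀ : ℕ} (hdd : d < d')
    (H : ∀ i j : ℕ, i ≤ j → j ≤ N₀ → ∀ x : ℝ, x = q - q * j / N₀ →
      RowN S c r₀ r K E e₀ v (v + lam) rd p n (p r + α₁ * (q - q * i / N₀))
        (p (r + 1) + α₂ * x) (p (r + 1) + α₂ * (q - q * i / N₀))
        ((α₂ - h) * ((q - q * i / N₀) - x) * Real.log 2 + d)) :
    Rw2 S Ψ.swap (c (r + 1)) (c r) v (p (r + 1)) (p r) α₂ α₁ q h d' N₀ := by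
  intro i j hij hj
  obtain ⟨x, hx⟩ : ∃ x : ℝ, x = q - q * j / N₀ := ⟨_, rfl⟩
  rw [← hx]
  obtain ⟨B, hB⟩ : ∃ B : ℝ, B = r * Real.log (4 * (K + 3) + 3) + m * Real.log 7 := ⟨_, rfl⟩
  obtain ⟨J₀, hJ₀⟩ := exists_nat_ge (B / (d' - d))
  refine Bas.mono J₀ ((H i j hij hj x hx e he hle).and (bas_pos' htm)) ?_
  rintro J hJ F A ⟨hA, hpe⟩ V C z z' G₂ G₁ cc hps
  obtain ⟨g, hL, rfl, rfl, φ, hφ⟩ := hΨ J F A V C z z' G₁ G₂ cc hps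
  have hq := isLaw_cond F.isLaw hpe
  have hJr : (J₀ : ℝ) ≤ J := by exact_mod_cast hJ
  have g1 : B ≤ (d' - d) * J := by
    have := hJ₀.trans hJr
    rwa [div_le_iff₀ (by linarith), mul_comm] at this
  have g2 := hA V z z' g hL
  have g3 := cx_few hv0 hv hL hφ hq
    (fun ω => (⌊(2 : ℝ) ^ ((p (r + 1) + α₂ * x) * J) *
      ojet F (c (r + 1)) 0 (g (z' (slam F ⌊v * J⌋₊ ω)) (r + 1)) ω⌋,
      (⌊(2 : ℝ) ^ ((p r + α₁ * (q - q * i / N₀)) * J) *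
        ojet F (c r) 0 (g (z' (slam F ⌊v * J⌋₊ ω)) r) ω⌋,
        (z' (slam F ⌊v * J⌋₊ ω), (cc (slam F ⌊v * J⌋₊ ω), F.W ω)))))
    (fun ω ω' e => by
      have k1 := Prod.ext_iff.mp e
      have k2 := Prod.ext_iff.mp k1.2
      have k3 := Prod.ext_iff.mp k2.2
      have k4 := Prod.ext_iff.mp k3.2
      exact ⟨k3.1, k4.1, k4.2⟩)
    (fun ω => ⌊(2 : ℝ) ^ ((p (r + 1) + α₂ * (q - q * i / N₀)) * J) *
      ojet F (c (r + 1)) 0 (g (z' (slam F ⌊v * J⌋₊ ω)) (r + 1)) ω⌋)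
    (fun ω => (hd F c (r + 1) z' ⌊v * J⌋₊ g (p (r + 1) + α₂ * x) ω,
      (hd F c r z' ⌊v * J⌋₊ g (p r + α₁ * (q - q * i / N₀)) ω,
        cx F c r₀ r z' ⌊v * J⌋₊ g n (v + lam) ω)))
    (fun ω ω' e k => by
      have k1 := Prod.ext_iff.mp e
      have k2 := Prod.ext_iff.mp k1.2
      exact Prod.ext k1.1 (Prod.ext k2.1 k))
  refine g3.trans ?_
  rw [← hB]
  have g4 : ((α₂ - h) * ((q - q * i / N₀) - x) * Real.log 2 + d') * J =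
      ((α₂ - h) * ((q - q * i / N₀) - x) * Real.log 2 + d) * J + (d' - d) * J := by ring
  rw [g4]
  exact add_le_add g2 g1

/-- **The rows of the first place**, in the form of `pair_rb`. -/
theorem rw2_U {S : PCl m} {C₀ : ℝ} (htm : TmC S C₀) {Ψ : Fm2 m} {c : ℕ → Fin m} {r₀ r K : ℕ}
    {e e₀ : ℝ} {E : ℕ → ℝ} {v lam : ℝ} {rd p n : ℕ → ℝ} (hv0 : 0 ≤ v) (hv : v ≤ 1)
    (hΨ : PsL Ψ c r₀ r K e E v lam rd p n) (he : 0 < e) (hle : e ≤ e₀) {α₁ α₂ q h d d' : ℝ}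
    {N₀ : ℕ} (hdd : d < d')
    (H : ∀ i j : ℕ, i ≤ j → j ≤ N₀ → ∀ x : ℝ, x = q - q * j / N₀ →
      RowU S c r₀ r K E e₀ v (v + lam) rd p n (p r + α₁ * x)
        (p r + α₁ * (q - q * i / N₀)) (p (r + 1) + α₂ * (q - q * i / N₀))
        ((α₁ - h) * ((q - q * i / N₀) - x) * Real.log 2 + d)) :
    Rw2 S Ψ (c r) (c (r + 1)) v (p r) (p (r + 1)) α₁ α₂ q h d' N₀ := by
  intro i j hij hj
  obtain ⟨x, hx⟩ : ∃ x : ℝ, x = q - q * j / N₀ := ⟨_, rfl⟩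
  rw [← hx]
  obtain ⟨B, hB⟩ : ∃ B : ℝ, B = r * Real.log (4 * (K + 3) + 3) + m * Real.log 7 := ⟨_, rfl⟩
  obtain ⟨J₀, hJ₀⟩ := exists_nat_ge (B / (d' - d))
  refine Bas.mono J₀ ((H i j hij hj x hx e he hle).and (bas_pos' htm)) ?_
  rintro J hJ F A ⟨hA, hpe⟩ V C z z' G₁ G₂ cc hps
  obtain ⟨g, hL, rfl, rfl, φ, hφ⟩ := hΨ J F A V C z z' G₁ G₂ cc hps
  have hq := isLaw_cond F.isLaw hpe
  have hJr : (J₀ : ℝ) ≤ J := by exact_mod_cast hJ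
  have g1 : B ≤ (d' - d) * J := by
    have := hJ₀.trans hJr
    rwa [div_le_iff₀ (by linarith), mul_comm] at this
  have g2 := hA V z z' g hL
  have g3 := cx_few hv0 hv hL hφ hq
    (fun ω => (⌊(2 : ℝ) ^ ((p r + α₁ * x) * J) *
      ojet F (c r) 0 (g (z' (slam F ⌊v * J⌋₊ ω)) r) ω⌋,
      (⌊(2 : ℝ) ^ ((p (r + 1) + α₂ * (q - q * i / N₀)) * J) *
        ojet F (c (r + 1)) 0 (g (z' (slam F ⌊v * J⌋₊ ω)) (r + 1)) ω⌋,
        (z' (slam F ⌊v * J⌋₊ ω), (cc (slam F ⌊v * J⌋₊ ω), F.W ω)))))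
    (fun ω ω' e => by
      have k1 := Prod.ext_iff.mp e
      have k2 := Prod.ext_iff.mp k1.2
      have k3 := Prod.ext_iff.mp k2.2
      have k4 := Prod.ext_iff.mp k3.2
      exact ⟨k3.1, k4.1, k4.2⟩)
    (fun ω => ⌊(2 : ℝ) ^ ((p r + α₁ * (q - q * i / N₀)) * J) *
      ojet F (c r) 0 (g (z' (slam F ⌊v * J⌋₊ ω)) r) ω⌋)
    (fun ω => (hd F c r z' ⌊v * J⌋₊ g (p r + α₁ * x) ω,
      (hd F c (r + 1) z' ⌊v * J⌋₊ g (p (r + 1) + α₂ * (q - q * i / N₀)) ω,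
        cx F c r₀ r z' ⌊v * J⌋₊ g n (v + lam) ω)))
    (fun ω ω' e k => by
      have k1 := Prod.ext_iff.mp e
      have k2 := Prod.ext_iff.mp k1.2
      exact Prod.ext k1.1 (Prod.ext k2.1 k))
  refine g3.trans ?_
  rw [← hB]
  have g4 : ((α₁ - h) * ((q - q * i / N₀) - x) * Real.log 2 + d') * J =
      ((α₁ - h) * ((q - q * i / N₀) - x) * Real.log 2 + d) * J + (d' - d) * J := by ring
  rw [g4]
  exact add_le_add g2 g1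

end Pool.RW37
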