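import Pool.Agent.H71.AJX.Nfx

/-!
# The rows of a pair of heights over a nested chain

The chain is `c 0, …, c (r - 1)` (base `c 0, …, c (r₀ - 1)`), the pair is `c r`, `c (r + 1)`. All
heights are over one label of the whole chain at the window `v`, the context is: the label, the
heights of `c r₀, …, c (r - 1)` to `n l` digits, the base to `U` digits, the time.

`RowN`: the digits `(a, b]` of the height of `c (r + 1)`, given the digits `bu` of the height of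
`c r`. `RowU`: the digits `(au, bu]` of the height of `c r`, given the digits `b` of the height of
`c (r + 1)`.
-/

set_option autoImplicit false

namespace Pool.RW37

open Finset Real MvPolynomial
open Pool.Agent.H49.Ent Pool.Agent.H32.Dense Pool.STK Pool.KA Pool.KSAT Pool.K2S Pool.PB Pool.GEN
open Pool.S6C Pool.RCD Pool.LA91 Pool.OWN68 Pool.CHT Pool.AJX
open Pool.GRD (LbP)

variable {m J : ℕ}

/-- The digits `a` of the height of `c i`. -/
noncomputable def hd (F : Fam m J) (c : ℕ → Fin m) (i : ℕ) {V : Type} (z' : LnT F → V) (W : ℕ)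
    (g : V → ℕ → MvPolynomial (Option (Fin m)) ℝ) (a : ℝ) (ω : F.Ω) : ℤ :=
  ⌊(2 : ℝ) ^ (a * J) * hgt F (c i) z' W (fun y => g y i) ω⌋

/-- The context. -/
noncomputable def cx (F : Fam m J) (c : ℕ → Fin m) (r₀ r : ℕ) {V : Type} (z' : LnT F → V) (W : ℕ)
    (g : V → ℕ → MvPolynomial (Option (Fin m)) ℝ) (n : ℕ → ℝ) (U : ℝ) (ω : F.Ω) :
    V × ((ℕ → ℤ) × ((Fin m → ℤ) × (ℕ × F.ζ))) :=
  (z' (slam F W ω), (hts F c r₀ r z' W g n ω, (bI ((range r₀).image c) U J F ω, F.W ω)))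

/-- **The row of `c (r + 1)`**, given the digits `bu` of `c r`. -/
def RowN (S : PCl m) (c : ℕ → Fin m) (r₀ r K : ℕ) (E : ℕ → ℝ) (e₀ v U : ℝ) (rd p n : ℕ → ℝ)
    (bu a b t : ℝ) : Prop :=
  ∀ e : ℝ, 0 < e → e ≤ e₀ → Bas S (fun J F A => ∀ (V : Type) (z : PtT F → V) (z' : LnT F → V)
    (g : V → ℕ → MvPolynomial (Option (Fin m)) ℝ), LbX F c r₀ (r + 2) K e E v rd p A z z' g →
    CH (Pool.Agent.H49.Ent.cond F.p A True) (hd F c (r + 1) z' ⌊v * J⌋₊ g b)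
      (fun ω => (hd F c (r + 1) z' ⌊v * J⌋₊ g a ω, (hd F c r z' ⌊v * J⌋₊ g bu ω,
        cx F c r₀ r z' ⌊v * J⌋₊ g n U ω))) ≤ t * J)

/-- **The row of `c r`**, given the digits `b` of `c (r + 1)`. -/
def RowU (S : PCl m) (c : ℕ → Fin m) (r₀ r K : ℕ) (E : ℕ → ℝ) (e₀ v U : ℝ) (rd p n : ℕ → ℝ)
    (au bu b t : ℝ) : Prop :=
  ∀ e : ℝ, 0 < e → e ≤ e₀ → Bas S (fun J F A => ∀ (V : Type) (z : PtT F → V) (z' : LnT F → V)
    (g : V → ℕ → MvPolynomial (Option (Fin m)) ℝ), LbX F c r₀ (r + 2) K e E v rd p A z z' g →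
    CH (Pool.Agent.H49.Ent.cond F.p A True) (hd F c r z' ⌊v * J⌋₊ g bu)
      (fun ω => (hd F c r z' ⌊v * J⌋₊ g au ω, (hd F c (r + 1) z' ⌊v * J⌋₊ g b ω,
        cx F c r₀ r z' ⌊v * J⌋₊ g n U ω))) ≤ t * J)

/-- Digits of a number, from other digits. -/
theorem fl_few {Ω T : Type} [Fintype Ω] {q : Ω → ℝ} (hq : IsLaw q) (f : Ω → ℝ) {a b : ℝ} {N : ℝ}
    (hN : 0 ≤ N) (Y : Ω → T) :
    CH q (fun ω => ⌊(2 : ℝ) ^ (b * N) * f ω⌋) (fun ω => (⌊(2 : ℝ) ^ (a * N) * f ω⌋, Y ω)) ≤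
      max (b - a) 0 * N * Real.log 2 + Real.log 5 := by
  have h0 := hq.nonneg
  have hl2 : 0 < Real.log 2 := Real.log_pos one_lt_two
  obtain ⟨L, hL⟩ : ∃ L : ℝ, L = (2 : ℝ) ^ (max (b - a) 0 * N) := ⟨_, rfl⟩
  have hL1 : 1 ≤ L := by
    rw [hL]
    exact Real.one_le_rpow one_le_two (mul_nonneg (le_max_right _ _) hN)
  have h1 := CH_le_int h0 hq.sum_one (fun ω => ⌊(2 : ℝ) ^ (b * N) * f ω⌋)
    (fun ω => (⌊(2 : ℝ) ^ (a * N) * f ω⌋, Y ω)) (fun _ => L + 1) (fun ω ω' _ _ e => by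
      have e1 : ⌊(2 : ℝ) ^ (a * N) * f ω⌋ = ⌊(2 : ℝ) ^ (a * N) * f ω'⌋ := (Prod.ext_iff.mp e).1
      have e2 : |(2 : ℝ) ^ (a * N) * f ω - (2 : ℝ) ^ (a * N) * f ω'| < 1 :=
        Int.abs_sub_lt_one_of_floor_eq_floor e1
      have e3 : (2 : ℝ) ^ (b * N) = 2 ^ ((b - a) * N) * 2 ^ (a * N) := by
        rw [← Real.rpow_add two_pos]
        congr 1
        ring
      have e4 : (2 : ℝ) ^ ((b - a) * N) ≤ L := by
        rw [hL]
        exact Real.rpow_le_rpow_of_exponent_le one_le_two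
          (mul_le_mul_of_nonneg_right (le_max_left _ _) hN)
      have e5 : |(2 : ℝ) ^ (b * N) * f ω - (2 : ℝ) ^ (b * N) * f ω'| ≤ L := by
        rw [e3, mul_assoc, mul_assoc, ← mul_sub, abs_mul,
          abs_of_pos (Real.rpow_pos_of_pos two_pos _)]
        calc _ ≤ L * 1 := mul_le_mul e4 e2.le (abs_nonneg _) (by linarith)
          _ = L := mul_one L
      have g1 := Int.floor_le ((2 : ℝ) ^ (b * N) * f ω)
      have g2 := Int.lt_floor_add_one ((2 : ℝ) ^ (b * N) * f ω)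
      have g3 := Int.floor_le ((2 : ℝ) ^ (b * N) * f ω')
      have g4 := Int.lt_floor_add_one ((2 : ℝ) ^ (b * N) * f ω')
      have e6 := abs_le.1 e5
      push_cast
      rw [abs_le]
      constructor <;> linarith [e6.1, e6.2])
  refine h1.trans ?_
  rw [Ex_const hq.sum_one]
  have h2 : 2 * (L + 1) + 1 ≤ 5 * L := by linarith
  refine (Real.log_le_log (by linarith) h2).trans (le_of_eq ?_)
  rw [Real.log_mul (by norm_num) (by linarith), hL, Real.log_rpow two_pos]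
  ring

end Pool.RW37
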