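import Pool.Agent.H37.RW2.Nf
import Pool.Agent.H18.PN.Chu
import Pool.Agent.H91.LA.TwoN

/-!
# The heights of a chain over the labels of an earlier window

`HtN`: the numbers along a finite list of windows `b 0 = o, …, b M = w`. `htn_F1`: the height of every
place `i ≤ R` over a label of the window `w`, to `Nl i` digits, is few bits given the record at the
window `o`, the heights of the earlier places to `n l` digits and the base to `U` digits.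
-/

set_option autoImplicit false

namespace Pool.RW37

open Finset Real MvPolynomial
open Pool.Agent.H49.Ent Pool.Agent.H32.Dense Pool.STK Pool.KA Pool.KSAT Pool.K2S Pool.PB Pool.GEN
open Pool.S6C Pool.RCD Pool.LA91 Pool.OWN68 Pool.CHT Pool.AJX
open Pool.GRD (LbP Pb_mono_pos)
open Pool.UNJ (ceI Tub)
open Pool.BFL (Pb)

variable {m J : ℕ}

/-- **The numbers of the heights** of the places `r₀ ≤ i ≤ R` along the windows `b 0 = o, …, b M = w`: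
`n l` are the known digits of the places `l < R`. -/
structure HtN (r₀ R M : ℕ) (b : ℕ → ℝ) (sn : ℕ → ℝ → ℝ) (n Nl : ℕ → ℝ) (w o U ρ : ℝ) : Prop where
  b0 : b 0 = o
  bM : b M = w
  bw : ∀ k ≤ M, w ≤ b k ∧ b k ≤ o
  w0 : 0 ≤ w
  o1 : o < 1
  oU : o < U
  U1 : U ≤ 1
  ρ0 : 0 < ρ
  far1 : ∀ l, r₀ ≤ l → l < R → ∀ k ≤ M, sn l (b k) + ρ < n l
  far2 : ∀ l, r₀ ≤ l → l < R → ∀ k ≤ M, n l ≤ min (sn l w) (sn l (b k)) + (U - b k)
  far3 : ∀ l, r₀ ≤ l → l < R → ∀ l', r₀ ≤ l' → l' < l → ∀ k ≤ M,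
    n l ≤ min (sn l w) (sn l (b k)) + (n l' - sn l' (b k) - ρ)
  top : ∀ i, r₀ ≤ i → i ≤ R → Nl i + ρ ≤ sn i o
  st1 : ∀ i, r₀ ≤ i → i ≤ R → ∀ k < M,
    Nl i + ρ ≤ min (sn i (b k)) (sn i (b (k + 1))) + (U - max (b k) (b (k + 1)))
  st2 : ∀ i, r₀ ≤ i → i ≤ R → ∀ l, r₀ ≤ l → l < i → ∀ k < M,
    Nl i + ρ ≤ min (sn i (b k)) (sn i (b (k + 1))) + (n l - sn l (max (b k) (b (k + 1))) - ρ)

/-- **The chain and the labels** at the windows of the list; of the last place `R` only the labels,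
with a gradient exponent. -/
def ChL (S : PCl m) (c : ℕ → Fin m) (r₀ R M : ℕ) (b : ℕ → ℝ) (sn : ℕ → ℝ → ℝ) : Prop :=
  ∀ k ≤ M, ∃ (u₁ : ℝ) (rd : ℕ → ℝ), (∀ i, r₀ ≤ i → i ≤ R → 0 ≤ rd i) ∧
    Chn S c r₀ R (b k) (b k) u₁ (fun l => sn l (b k)) rd ∧
    ∃ E : ℝ, 0 ≤ E ∧ Pool.V0F.LbU S ((range R).image c) (c R) (b k) (sn R (b k)) (rd R) E

/-- From a chain with the place `R`. -/
theorem chl_of {S : PCl m} {c : ℕ → Fin m} {r₀ R M : ℕ} {b : ℕ → ℝ} {sn : ℕ → ℝ → ℝ}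
    (hr : r₀ ≤ R) (h : ∀ k ≤ M, ∃ (u₁ : ℝ) (rd : ℕ → ℝ), (∀ i, r₀ ≤ i → i ≤ R → 0 ≤ rd i) ∧
      Chn S c r₀ (R + 1) (b k) (b k) u₁ (fun l => sn l (b k)) rd) : ChL S c r₀ R M b sn := by
  intro k hk
  obtain ⟨u₁, rd, h1, h2⟩ := h k hk
  exact ⟨u₁, rd, h1, h2.take hr (Nat.le_succ _), 0, le_rfl,
    (h2.att R hr (Nat.lt_succ_self _)).lbU⟩

theorem htn_F1 {S : PCl m} {C₀ : ℝ} (htm : TmC S C₀) {c : ℕ → Fin m} {r₀ R M : ℕ} {b : ℕ → ℝ}
    {sn : ℕ → ℝ → ℝ} {n Nl : ℕ → ℝ} {w o U ρ : ℝ} (hN : HtN r₀ R M b sn n Nl w o U ρ)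
    (hc : ChL S c r₀ R M b sn) {i : ℕ} (hi0 : r₀ ≤ i) (hi : i ≤ R) {δ₂ : ℝ} (hδ₂ : 0 < δ₂) :
    F1 S (fun J F => ptr F J) (vg o)
      (fun J F ω => (bI ((range r₀).image c) U J F ω, F.W ω))
      (qJets m c r₀ i 0 (fun _ _ => w) (fun l _ => sn l w) (fun l _ => n l))
      (qJet m ((range i).image c) (c i) 0 w (sn i w) (Nl i)) (ρ / 8) δ₂ := by
  have hlast := hN.bM
  have key := chainHU (y := fun J F ω => (bI ((range r₀).image c) U J F ω, F.W ω))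
    (f := fun J F => ptr F J) htm (c := c) (r₀ := r₀) (r := i) (κ := c i) (o := o)
    (p₀ := U) (N := Nl i) (ρ := ρ) (wv := w) (Pv := sn) (Nv := fun l _ => n l)
    (lv := fun β l => n l - sn l β - ρ) hN.o1 hN.oU hN.U1 hN.ρ0 (fun J F => ⟨id, fun _ => rfl⟩)
    (kn0_bI _ _) b (fun k => sn i (b k)) M
    (fun k hk => hN.w0.trans (hN.bw k hk).1) (fun k hk => (hN.bw k hk).2)
    (fun k hk => (hN.bw k hk).1)
    (fun k hk => by
      obtain ⟨u₁, rd, h1, h2, E, hE, h3⟩ := hc k hk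
      rcases hi.eq_or_lt with hiR | hiR
      · subst hiR
        exact ⟨rd i, E, h1 i hi0 le_rfl, hE, h3⟩
      · exact ⟨rd i, 0, h1 i hi0 hi, le_rfl, (h2.att i hi0 hiR).lbU⟩)
    (fun k hk => by
      obtain ⟨u₁, rd, h1, h2, h3⟩ := hc k hk
      exact ⟨u₁, rd, h2.take hi0 hi⟩)
    (fun k hk l hl0 hl => by
      have := hN.far1 l hl0 (by omega) k hk
      linarith)
    (fun k hk l hl0 hl => by
      show sn l (b k) + (n l - sn l (b k) - ρ) + ρ ≤ n l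
      linarith)
    (fun k hk l hl0 hl => by
      have := hN.far2 l hl0 (by omega) k hk
      linarith)
    (fun k hk l hl0 hl l' hl'0 hl' => by
      have := hN.far3 l hl0 (by omega) l' hl'0 hl' k hk
      linarith)
    (by
      rw [hN.b0]
      exact hN.top i hi0 hi)
    (fun k hk => hN.st1 i hi0 hi k hk)
    (fun k hk l hl0 hl => hN.st2 i hi0 hi l hl0 hl k hk) δ₂ hδ₂
  rw [hlast] at key
  exact key

end Pool.RW37
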