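import Pool.Agent.H37.RW2.Z

/-!
# The row of the first place of a pair

`FulY`: the digits `(sa, so]` of the height of `κ` over a label of the window `v` have the entropy
`d J` over every code which is closed at the window `u`, and the exact places `I₀` (`Pool.ALT.ful_few`).
`rowU_of`: the row of `c r` given the digits of `c (r + 1)` from the row of `c (r + 1)` given the digits
of `c r` and `FulY`.
-/

set_option autoImplicit false

namespace Pool.RW37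

open Finset Real MvPolynomial
open Pool.Agent.H49.Ent Pool.Agent.H32.Dense Pool.STK Pool.KA Pool.KSAT Pool.K2S Pool.PB Pool.GEN
open Pool.S6C Pool.RCD Pool.LA91 Pool.OWN68 Pool.CHT Pool.AJX
open Pool.GRD (LbP Pb_mono_pos)
open Pool.UNJ (ceI Tub)
open Pool.BFL (Pb)

variable {m J : ℕ}

/-- The heights of the chain, from the exact places. -/
theorem hts_ex {F : Fam m J} {A : F.Ω → Prop} {c : ℕ → Fin m} {r₀ r K : ℕ} {e g₀ v : ℝ}
    {E rd p n : ℕ → ℝ} {V : Type} {z : PtT F → V} {z' : LnT F → V}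
    {g : V → ℕ → MvPolynomial (Option (Fin m)) ℝ} (hg₀ : 0 < g₀)
    (hL : LbX F c r₀ (r + 2) K e E v rd p A z z' g) (he : 0 < e) (hle : e ≤ g₀ / 2)
    (hE : ∀ i, r₀ ≤ i → i < r → 0 ≤ E i) (hrd : ∀ i, r₀ ≤ i → i < r → rd i + g₀ ≤ 1)
    (hn : ∀ i, r₀ ≤ i → i < r → n i + E i + g₀ ≤ 1)
    (hJ : Real.log (m + 1) ≤ g₀ / 2 * Real.log 2 * J)
    {q : F.Ω → ℝ} (hq : IsLaw q) (hqA : ∀ ω, 0 < q ω → A ω) {T : Type} (Y : F.Ω → T)
    (hY : ∀ ω ω', Y ω = Y ω' → z' (slam F ⌊v * J⌋₊ ω) = z' (slam F ⌊v * J⌋₊ ω') ∧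
      ceI ((range r).image c) (fun _ => J) (F.x ω) =
        ceI ((range r).image c) (fun _ => J) (F.x ω') ∧ F.T ω = F.T ω') :
    CH q (fun ω => hts F c r₀ r z' ⌊v * J⌋₊ g n ω) Y ≤ r * Real.log 9 := by
  have h0 := hq.nonneg
  have hJ0 : (0 : ℝ) ≤ J := Nat.cast_nonneg J
  have l9 : 0 ≤ Real.log 9 := Real.log_nonneg (by norm_num)
  refine le_trans (CH_mono_left h0 (X' := fun ω (l : Fin r) => hts F c r₀ r z' ⌊v * J⌋₊ g n ω l)
    fun ω ω' _ _ e => funext fun l => ?_) ?_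
  · by_cases hl : l < r
    · exact congrFun (Prod.ext_iff.mp e).1 ⟨l, hl⟩
    · unfold hts
      rw [if_neg fun h => hl h.2, if_neg fun h => hl h.2]
  refine (CH_pis h0 _ _).trans ?_
  have h1 : ∀ l ∈ (univ : Finset (Fin r)), CH q (fun ω => hts F c r₀ r z' ⌊v * J⌋₊ g n ω l) Y ≤
      Real.log 9 := by
    intro l _
    by_cases hl0 : r₀ ≤ (l : ℕ)
    · have e0 : (fun ω => hts F c r₀ r z' ⌊v * J⌋₊ g n ω l) = fun ω =>
          ⌊(2 : ℝ) ^ (n l * J) * hgt F (c l) z' ⌊v * J⌋₊ (fun y => g y l) ω⌋ := by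
        funext ω
        unfold hts
        rw [if_pos ⟨hl0, l.2⟩]
      rw [e0]
      have e9 : (9 : ℝ) = 2 * ((4 : ℕ) : ℝ) + 1 := by norm_num
      rw [e9]
      refine CH_pair hq _ _ fun ω ω' hω hω' ee => floor_sub_le (D := 3) ?_
      obtain ⟨k1, k2, k3⟩ := hY ω ω' ee
      have hlb := hL l hl0 (by omega)
      have hrl := hrd l hl0 l.2
      have hEl := hE l hl0 l.2
      have hnl := hn l hl0 l.2
      have hρ : ⌊(rd l + e) * J⌋₊ ≤ J := by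
        refine Nat.floor_le_of_le ?_
        have : (rd l + e) * J ≤ 1 * J := mul_le_mul_of_nonneg_right (by linarith) hJ0
        linarith
      have k4 : ceI ((range (l : ℕ)).image c) (fun _ => J) (F.x ω) =
          ceI ((range (l : ℕ)).image c) (fun _ => J) (F.x ω') :=
        ceI_tup le_rfl fun i hi => tup_ceI k2 (hi.trans l.2)
      have g1 := val_near hlb hρ (hqA ω hω) (hqA ω' hω') k4 k1 k3
      have g2 : F.X J ω (c l) = F.X J ω' (c l) := tup_ceI k2 l.2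
      have g3 : |(2 : ℝ) ^ J * F.x ω (c l) - 2 ^ J * F.x ω' (c l)| < 1 := by
        have g2' : ⌊(2 : ℝ) ^ J * F.x ω (c l)⌋ = ⌊(2 : ℝ) ^ J * F.x ω' (c l)⌋ := g2
        exact Int.abs_sub_lt_one_of_floor_eq_floor g2'
      obtain ⟨P, hP⟩ : ∃ P : ℝ, P = (2 : ℝ) ^ (n l * J) := ⟨_, rfl⟩
      have hP0 : 0 < P := by rw [hP]; exact Real.rpow_pos_of_pos two_pos _
      have hPJ : P ≤ (2 : ℝ) ^ J := by
        rw [hP, ← Real.rpow_natCast]
        refine Real.rpow_le_rpow_of_exponent_le one_le_two ?_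
        have : n l * J ≤ 1 * J := mul_le_mul_of_nonneg_right (by linarith) hJ0
        linarith
      have g4 : P * |F.x ω (c l) - F.x ω' (c l)| ≤ 1 := by
        rw [← mul_sub, abs_mul, abs_of_pos (by positivity : (0 : ℝ) < 2 ^ J)] at g3
        exact (mul_le_mul_of_nonneg_right hPJ (abs_nonneg _)).trans g3.le
      have g5 : P * (2 * (2 ^ ⌊(E l + e) * J⌋₊ * (((m : ℝ) + 1) * (1 / 2 ^ J)))) ≤ 2 := by
        have e1 : (2 : ℝ) ^ ⌊(E l + e) * J⌋₊ ≤ (2 : ℝ) ^ ((E l + e) * J) := by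
          rw [← Real.rpow_natCast]
          exact Real.rpow_le_rpow_of_exponent_le one_le_two
            (Nat.floor_le (mul_nonneg (by linarith) hJ0))
        have e2 : (m : ℝ) + 1 ≤ (2 : ℝ) ^ (g₀ / 2 * J) := by
          have hm : (0 : ℝ) < (m : ℝ) + 1 := by positivity
          rw [← Real.log_le_log_iff hm (Real.rpow_pos_of_pos two_pos _), Real.log_rpow two_pos]
          linarith
        have e3 : (1 : ℝ) / 2 ^ J = (2 : ℝ) ^ (-(J : ℝ)) := by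
          rw [Real.rpow_neg two_pos.le, Real.rpow_natCast, one_div]
        have e4 : P * (2 ^ ⌊(E l + e) * J⌋₊ * (((m : ℝ) + 1) * (1 / 2 ^ J))) ≤
            (2 : ℝ) ^ (n l * J) * ((2 : ℝ) ^ ((E l + e) * J) *
              ((2 : ℝ) ^ (g₀ / 2 * J) * (2 : ℝ) ^ (-(J : ℝ)))) := by
          rw [e3, hP]
          refine mul_le_mul_of_nonneg_left ?_ (Real.rpow_pos_of_pos two_pos _).le
          refine mul_le_mul e1 ?_ (by positivity) (Real.rpow_pos_of_pos two_pos _).le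
          exact mul_le_mul_of_nonneg_right e2 (Real.rpow_pos_of_pos two_pos _).le
        have e5 : (2 : ℝ) ^ (n l * J) * ((2 : ℝ) ^ ((E l + e) * J) *
              ((2 : ℝ) ^ (g₀ / 2 * J) * (2 : ℝ) ^ (-(J : ℝ)))) ≤ 1 := by
          rw [← Real.rpow_add two_pos, ← Real.rpow_add two_pos, ← Real.rpow_add two_pos]
          refine Real.rpow_le_one_of_one_le_of_nonpos one_le_two ?_
          nlinarith
        nlinarith
      have g6 : (2 : ℝ) ^ (n l * J) * hgt F (c l) z' ⌊v * J⌋₊ (fun y => g y l) ω -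
          2 ^ (n l * J) * hgt F (c l) z' ⌊v * J⌋₊ (fun y => g y l) ω' =
          P * (F.x ω (c l) - F.x ω' (c l)) - P * (eval (bt F ω) (g (z' (slam F ⌊v * J⌋₊ ω)) l) -
            eval (bt F ω') (g (z' (slam F ⌊v * J⌋₊ ω')) l)) := by
        rw [hgt_eq, hgt_eq, hP]
        ring
      rw [g6]
      refine (abs_sub _ _).trans ?_
      rw [abs_mul, abs_mul, abs_of_pos hP0]
      have g7 : P * |eval (bt F ω) (g (z' (slam F ⌊v * J⌋₊ ω)) l) -
          eval (bt F ω') (g (z' (slam F ⌊v * J⌋₊ ω')) l)| ≤ 2 :=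
        (mul_le_mul_of_nonneg_left g1 hP0.le).trans g5
      push_cast
      linarith
    · refine le_trans (le_of_eq (CH_eq_zero h0 fun ω ω' _ _ _ => ?_)) l9
      unfold hts
      rw [if_neg fun h => hl0 h.1, if_neg fun h => hl0 h.1]
  refine (Finset.sum_le_sum h1).trans (le_of_eq ?_)
  rw [Finset.sum_const, Finset.card_univ, Fintype.card_fin, nsmul_eq_mul]

/-- **The digits of `κ` over every closed code.** -/
def FulY (S : PCl m) (I I₀ : Finset (Fin m)) (κ : Fin m) (K : ℕ) (e₁ ρ₁ π₁ v u sa so d : ℝ) :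
    Prop :=
  Bas S (fun J F A => ∀ (V : Type) (z : PtT F → V) (z' : LnT F → V)
      (G : V → MvPolynomial (Option (Fin m)) ℝ), LbOK F I κ K ⌊e₁ * J⌋₊ J ⌊v * J⌋₊ ⌊ρ₁ * J⌋₊
        ⌊π₁ * J⌋₊ A z z' G →
      ∀ (C : Type) (zc : PtT F → C) (zc' : LnT F → C),
      (∀ ω, A ω → zc (ptr F J ω) = zc' (slam F ⌊u * J⌋₊ ω)) →
      ∀ (D : Type) (Y : F.Ω → D) (b : ℝ), CH (Pool.Agent.H49.Ent.cond F.p A True) Y
        (fun ω => (⌊(2 : ℝ) ^ (sa * J) * hgt F κ z' ⌊v * J⌋₊ G ω⌋, ((z' (slam F ⌊v * J⌋₊ ω),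
          zc' (slam F ⌊u * J⌋₊ ω)), (ceI I₀ (fun _ => J) (F.x ω), F.W ω)))) ≤ b →
      d * J - b ≤ CH (Pool.Agent.H49.Ent.cond F.p A True)
        (fun ω => ⌊(2 : ℝ) ^ (so * J) * hgt F κ z' ⌊v * J⌋₊ G ω⌋) Y)

/-- **The row of the first place.** -/
theorem rowU_of {S : PCl m} {C₀ : ℝ} (htm : TmC S C₀) {c : ℕ → Fin m} {r₀ r K : ℕ}
    {E : ℕ → ℝ} {e₀ v U : ℝ} {rd p n : ℕ → ℝ} {au bu a b tz : ℝ}
    (hZ : RowN S c r₀ r K E e₀ v U rd p n bu a b tz)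
    {K₁ : ℕ} {e₁ ρ₁ π₁ u sa so d : ℝ}
    (hF : FulY S ((range (r + 1)).image c) ((range r).image c) (c (r + 1)) K₁ e₁ ρ₁ π₁ v u sa so d)
    (hvu : v ≤ u) (hu1 : u ≤ 1) (ha : a ≤ sa) (hb : so ≤ b)
    (hK : K ≤ K₁) (hE₁ : E (r + 1) + e₀ ≤ e₁) (hρ₁ : rd (r + 1) + e₀ ≤ ρ₁)
    (hπ₁ : π₁ ≤ p (r + 1) - e₀) {Nu e₃ δ₃ g₀ : ℝ} (hδ₃ : 0 ≤ δ₃) (hg₀ : 0 < g₀)
    (hu : r₀ ≤ r → F1 S (fun J F => ptr F J) (vg u)
      (fun J F ω => (bI ((range r₀).image c) U J F ω, F.W ω))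
      (qJets m c r₀ r 0 (fun _ _ => v) (fun l _ => p l) (fun l _ => n l))
      (qJet m ((range r).image c) (c r) 0 v (p r) Nu) e₃ δ₃) (hr : r₀ ≤ r) (he₃ : e₀ ≤ e₃)
    (heg : e₀ ≤ g₀ / 2) (hE : ∀ i, r₀ ≤ i → i ≤ r → 0 ≤ E i ∧ E i ≤ 1)
    (hrd : ∀ i, r₀ ≤ i → i ≤ r → 0 ≤ rd i ∧ rd i + g₀ ≤ 1)
    (hn : ∀ i, r₀ ≤ i → i < r → n i + E i + g₀ ≤ 1) (hU : U ≤ 1)
    (hab : a ≤ b) (haub : au ≤ bu) {t : ℝ}
    (ht : (bu - au) * Real.log 2 + tz - d + δ₃ + max (au - Nu) 0 * Real.log 2 < t) :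
    RowU S c r₀ r K E e₀ v U rd p n au bu b t := by
  classical
  intro e he hle
  have hl2 : 0 < Real.log 2 := Real.log_pos one_lt_two
  have hlogm : 0 ≤ Real.log (m + 1) := Real.log_nonneg (by
    have : (0 : ℝ) ≤ m := Nat.cast_nonneg m
    linarith)
  have l5 : 0 ≤ Real.log 5 := Real.log_nonneg (by norm_num)
  have l9 : 0 ≤ Real.log 9 := Real.log_nonneg (by norm_num)
  obtain ⟨σ, hσ⟩ : ∃ σ : ℝ, σ = t - ((bu - au) * Real.log 2 + tz - d + δ₃ +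
    max (au - Nu) 0 * Real.log 2) := ⟨_, rfl⟩
  have hσ0 : 0 < σ := by rw [hσ]; linarith
  have hgap : 0 < g₀ / 2 * Real.log 2 := by positivity
  have he1 : 0 < e + 1 := by linarith
  obtain ⟨M₁, J₁, hc1⟩ := cnt_jets m K (e := e + 1) (w := v) he1 n (fun i => max (rd i) 0) r
    (fun i _ => le_max_right _ _)
  obtain ⟨M₂, J₂, hc2⟩ := cnt_jets m K (e := e + 1) (w := v) he1 (fun _ => Nu)
    (fun i => max (rd i) 0) (r + 1) (fun i _ => le_max_right _ _)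
  obtain ⟨J₃, hJ₃⟩ := exists_nat_ge (Real.log (m + 1) / (g₀ / 2 * Real.log 2) +
    (5 * Real.log 5 + r * Real.log 9) / σ)
  refine Bas.mono (max (max J₁ J₂) J₃) ((((hZ e he hle).and hF).and
    (((hu hr).mono (hle.trans he₃) le_rfl) (max (max K M₁) M₂))).and (bas_pos htm)) ?_
  rintro J hJ F A ⟨⟨⟨hZA, hFA⟩, hUA⟩, hpe⟩ V z z' g hL
  have hJ1 : J₁ ≤ J := (le_max_left _ _).trans ((le_max_left _ _).trans hJ)
  have hJ2 : J₂ ≤ J := (le_max_right _ _).trans ((le_max_left _ _).trans hJ)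
  have hJ3 : (J₃ : ℝ) ≤ J := by exact_mod_cast (le_max_right _ _).trans hJ
  have hJ0 : (0 : ℝ) ≤ J := Nat.cast_nonneg J
  have t1 : 0 ≤ Real.log (m + 1) / (g₀ / 2 * Real.log 2) := div_nonneg hlogm hgap.le
  have hr0 : (0 : ℝ) ≤ r := Nat.cast_nonneg r
  have t2 : 0 ≤ (5 * Real.log 5 + r * Real.log 9) / σ :=
    div_nonneg (add_nonneg (mul_nonneg (by norm_num) l5) (mul_nonneg hr0 l9)) hσ0.le
  have f1 : Real.log (m + 1) ≤ g₀ / 2 * Real.log 2 * J := by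
    have : Real.log (m + 1) / (g₀ / 2 * Real.log 2) ≤ J := by linarith
    rwa [div_le_iff₀ hgap, mul_comm] at this
  have f2 : 5 * Real.log 5 + r * Real.log 9 ≤ σ * J := by
    have h5 : (5 * Real.log 5 + r * Real.log 9) / σ ≤ J := by linarith
    have h6 := (div_le_iff₀ hσ0).1 h5
    linarith
  obtain ⟨q, hqd⟩ : ∃ q : F.Ω → ℝ, q = Pool.Agent.H49.Ent.cond F.p A True := ⟨_, rfl⟩
  have hq : IsLaw q := by
    rw [hqd]
    exact isLaw_cond F.isLaw hpe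
  have h0 := hq.nonneg
  have hqA : ∀ ω, 0 < q ω → A ω := fun ω hω => by
    rw [hqd] at hω
    exact of_cond_pos hω
  have hmx : ∀ i, r₀ ≤ i → i ≤ r → max (rd i) 0 = rd i := fun i hi0 hi =>
    max_eq_left (hrd i hi0 hi).1
  have hUJ : ⌊U * J⌋₊ ≤ J := floor_le hU J
  -- the height of `c r`, closed at `u`
  have hQ : (qJets m c r₀ r 0 (fun _ _ => v) (fun l _ => p l) (fun l _ => n l)).P
        (max (max K M₁) M₂) e J F A
        (fun ω i' j' => if j' = 0 then hts F c r₀ r z' ⌊v * J⌋₊ g n ω i' else 0) := by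
    refine (qJets m c r₀ r 0 _ _ _).mono (le_max_left _ _) le_rfl
      (qJets_htx (R := r + 2) (by omega) hL fun l hl0 hl => ?_)
    exact hc1 l (by omega) J hJ1 F _ _ _ A V z z' (fun y => g y l) (by
      rw [hmx l hl0 (by omega)]
      exact hL.wk hl0 (by omega) (hE l hl0 (by omega)).2)
  have hQ' : (qJet m ((range r).image c) (c r) 0 v (p r) Nu).P (max (max K M₁) M₂) e J F A
      (hd F c r z' ⌊v * J⌋₊ g Nu) := by
    refine ⟨?_, V, z, z', fun y => g y r, ?_, fun ω _ => rfl⟩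
    · have h2 := hc2 r (by omega) J hJ2 F _ _ _ A V z z' (fun y => g y r) (by
        rw [hmx r hr le_rfl]
        exact hL.wk hr (by omega) (hE r hr le_rfl).2)
      refine h2.trans (Real.exp_le_exp.2 (mul_le_mul_of_nonneg_right ?_ hJ0))
      exact_mod_cast le_max_right _ _
    · exact (LbP.of (hL r hr (by omega))).mono (Finset.Subset.refl _)
        ((le_max_left _ _).trans (le_max_left _ _)) le_rfl
  obtain ⟨V₁, z₁, ⟨⟨φa, hφa⟩, ψa, hψa⟩, hH₁⟩ := hUA _ _ hQ hQ'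
  rw [← hqd] at hH₁
  -- the label of `c (r + 1)`
  have hLN : LbOK F ((range (r + 1)).image c) (c (r + 1)) K₁ ⌊e₁ * J⌋₊ J ⌊v * J⌋₊ ⌊ρ₁ * J⌋₊
      ⌊π₁ * J⌋₊ A z z' (fun y => g y (r + 1)) :=
    (hL (r + 1) (by omega) (by omega)).mono (Finset.Subset.refl _) hK
      (Nat.floor_le_floor (mul_le_mul_of_nonneg_right (by linarith) hJ0))
      (Nat.floor_le_floor (mul_le_mul_of_nonneg_right (by linarith) hJ0))
      (Nat.floor_le_floor (mul_le_mul_of_nonneg_right (by linarith) hJ0))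
  -- the variables
  obtain ⟨ub, hub⟩ : ∃ X : F.Ω → ℤ, X = hd F c r z' ⌊v * J⌋₊ g bu := ⟨_, rfl⟩
  obtain ⟨ua, hua⟩ : ∃ X : F.Ω → ℤ, X = hd F c r z' ⌊v * J⌋₊ g au := ⟨_, rfl⟩
  obtain ⟨Hb, hHb⟩ : ∃ X : F.Ω → ℤ, X = hd F c (r + 1) z' ⌊v * J⌋₊ g b := ⟨_, rfl⟩
  obtain ⟨Ha, hHa⟩ : ∃ X : F.Ω → ℤ, X = hd F c (r + 1) z' ⌊v * J⌋₊ g a := ⟨_, rfl⟩
  obtain ⟨Xo, hXo⟩ : ∃ X : F.Ω → ℤ, X = hd F c (r + 1) z' ⌊v * J⌋₊ g so := ⟨_, rfl⟩
  obtain ⟨Y, hY⟩ : ∃ Y : F.Ω → V × ((ℕ → ℤ) × ((Fin m → ℤ) × (ℕ × F.ζ))),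
    Y = cx F c r₀ r z' ⌊v * J⌋₊ g n U := ⟨_, rfl⟩
  have hZ' := hZA V z z' g hL
  rw [← hqd, ← hHb, ← hHa, ← hub, ← hY] at hZ'
  rw [← hqd]
  -- exchange
  have g1 : CH q ub (fun ω => (ua ω, (Hb ω, Y ω))) =
      CH q ub (fun ω => (Hb ω, (ua ω, Y ω))) := by
    refine CH_congr h0 (fun _ _ _ _ e => (Prod.ext_iff.mp e).1)
      (fun _ _ _ _ e => (Prod.ext_iff.mp e).1) (fun ω ω' _ _ e => ?_) fun ω ω' _ _ e => ?_
    · simp only [Prod.mk.injEq] at e ⊢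
      exact ⟨e.2.1, e.1, e.2.2⟩
    · simp only [Prod.mk.injEq] at e ⊢
      exact ⟨e.2.1, e.1, e.2.2⟩
  have g2 := CH_exch h0 Hb ub (fun ω => (ua ω, Y ω))
  have g3 : CH q ub (fun ω => (ua ω, Y ω)) ≤ (bu - au) * J * Real.log 2 + Real.log 5 := by
    rw [hub, hua]
    have := fl_few hq (fun ω => hgt F (c r) z' ⌊v * J⌋₊ (fun y => g y r) ω) (a := au) (b := bu)
      hJ0 Y
    rwa [max_eq_left (by linarith : (0 : ℝ) ≤ bu - au)] at this
  have g4 := CH_le_add h0 Hb Ha (fun ω => (ub ω, (ua ω, Y ω)))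
  have g5 : CH q Ha (fun ω => (ub ω, (ua ω, Y ω))) ≤ CH q Ha (fun ω => (ua ω, Y ω)) :=
    CH_mono_cond h0 fun ω ω' _ _ e => (Prod.ext_iff.mp e).2
  have g6 : CH q Hb (fun ω => (Ha ω, (ub ω, (ua ω, Y ω)))) ≤ tz * J := by
    refine (CH_mono_cond h0 fun ω ω' _ _ e => ?_).trans hZ'
    simp only [Prod.mk.injEq] at e ⊢
    exact ⟨e.1, e.2.1, e.2.2.2⟩
  have g7 := CH_exch h0 Hb Ha (fun ω => (ua ω, Y ω))
  have g8 : CH q Ha (fun ω => (Hb ω, (ua ω, Y ω))) ≤ Real.log 5 := by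
    rw [hHa, hHb]
    have := fl_few hq (fun ω => hgt F (c (r + 1)) z' ⌊v * J⌋₊ (fun y => g y (r + 1)) ω)
      (a := b) (b := a) hJ0 (fun ω => (ua ω, Y ω))
    rwa [max_eq_right (by linarith : a - b ≤ 0), zero_mul, zero_mul, zero_add] at this
  have g9 := CH_le_add h0 Xo Hb (fun ω => (Ha ω, (ua ω, Y ω)))
  have g10 : CH q Xo (fun ω => (Hb ω, (Ha ω, (ua ω, Y ω)))) ≤ Real.log 5 := by
    rw [hXo, hHb]
    have := fl_few hq (fun ω => hgt F (c (r + 1)) z' ⌊v * J⌋₊ (fun y => g y (r + 1)) ω)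
      (a := b) (b := so) hJ0 (fun ω => (Ha ω, (ua ω, Y ω)))
    rwa [max_eq_right (by linarith : so - b ≤ 0), zero_mul, zero_mul, zero_add] at this
  -- the digits are full
  obtain ⟨R, hR⟩ : ∃ R : F.Ω → ℤ × ((V × V₁) × ((Fin m → ℤ) × (ℕ × F.ζ))), R = fun ω =>
      (⌊(2 : ℝ) ^ (sa * J) * hgt F (c (r + 1)) z' ⌊v * J⌋₊ (fun y => g y (r + 1)) ω⌋,
        ((z' (slam F ⌊v * J⌋₊ ω), ψa (slam F ⌊u * J⌋₊ ω)),
          (ceI ((range r).image c) (fun _ => J) (F.x ω), F.W ω))) := ⟨_, rfl⟩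
  have hRe : ∀ ω ω', R ω = R ω' →
      ⌊(2 : ℝ) ^ (sa * J) * hgt F (c (r + 1)) z' ⌊v * J⌋₊ (fun y => g y (r + 1)) ω⌋ =
      ⌊(2 : ℝ) ^ (sa * J) * hgt F (c (r + 1)) z' ⌊v * J⌋₊ (fun y => g y (r + 1)) ω'⌋ ∧
      z' (slam F ⌊v * J⌋₊ ω) = z' (slam F ⌊v * J⌋₊ ω') ∧
      ψa (slam F ⌊u * J⌋₊ ω) = ψa (slam F ⌊u * J⌋₊ ω') ∧
      ceI ((range r).image c) (fun _ => J) (F.x ω) =
        ceI ((range r).image c) (fun _ => J) (F.x ω') ∧ F.W ω = F.W ω' := by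
    intro ω ω' ee
    rw [hR] at ee
    simp only [Prod.mk.injEq] at ee
    exact ⟨ee.1, ee.2.1.1, ee.2.1.2, ee.2.2.1, ee.2.2.2⟩
  have g11 : CH q (fun ω => (Ha ω, (ua ω, Y ω))) R ≤
      δ₃ * J + max (au - Nu) 0 * J * Real.log 2 + (2 * Real.log 5 + r * Real.log 9) := by
    have k1 : CH q Ha R ≤ Real.log 5 := by
      have k2 := fl_few hq (fun ω => hgt F (c (r + 1)) z' ⌊v * J⌋₊ (fun y => g y (r + 1)) ω)
        (a := sa) (b := a) hJ0 R
      rw [max_eq_right (by linarith : a - sa ≤ 0), zero_mul, zero_mul, zero_add] at k2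
      refine (CH_mono_cond h0 fun ω ω' _ _ ee => ?_).trans (by rw [hHa]; exact k2)
      exact Prod.ext (hRe ω ω' ee).1 ee
    have k3 : CH q Y R ≤ r * Real.log 9 := by
      have k4 := hts_ex (m := m) (J := J) (A := A) hg₀ hL he (hle.trans heg)
        (fun i a b => (hE i a b.le).1) (fun i a b => (hrd i a b.le).2) hn f1 hq hqA R
        fun ω ω' ee => by
          obtain ⟨-, e2, -, e4, e5⟩ := hRe ω ω' ee
          exact ⟨e2, e4, (Prod.ext_iff.mp e5).1⟩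
      refine (CH_mono_left h0 fun ω ω' _ _ ee => ?_).trans k4
      have e1 := Prod.ext_iff.mp ee
      obtain ⟨-, e2, -, e4, e5⟩ := hRe ω ω' e1.2
      rw [hY]
      have e6 : bI ((range r₀).image c) U J F ω = bI ((range r₀).image c) U J F ω' :=
        ceI_tup hUJ fun l hl => tup_ceI e4 (hl.trans_le hr)
      exact Prod.ext e2 (Prod.ext e1.1 (Prod.ext e6 e5))
    have k5 : CH q ua (fun ω => (Y ω, R ω)) ≤
        δ₃ * J + (max (au - Nu) 0 * J * Real.log 2 + Real.log 5) := by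
      have k6 := CH_le_add h0 ua (hd F c r z' ⌊v * J⌋₊ g Nu) (fun ω => (Y ω, R ω))
      have k7 : CH q (hd F c r z' ⌊v * J⌋₊ g Nu) (fun ω => (Y ω, R ω)) ≤ δ₃ * J := by
        refine (CH_mono_cond h0 fun ω ω' hω hω' ee => ?_).trans hH₁
        have e1 := Prod.ext_iff.mp ee
        obtain ⟨-, e2, e3, e4, e5⟩ := hRe ω ω' e1.2
        have e6 := e1.1
        rw [hY] at e6
        have e7 := Prod.ext_iff.mp e6
        have e8 := Prod.ext_iff.mp e7.2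
        refine Prod.ext (funext fun i' => funext fun j' => ?_) (Prod.ext ?_ e8.2)
        · by_cases hj : j' = 0
          · simp only [if_pos hj]
            exact congrFun e8.1 i'
          · simp only [if_neg hj]
        · show z₁ ω = z₁ ω'
          rw [hψa ω (hqA ω hω), hψa ω' (hqA ω' hω')]
          exact e3
      have k8 := fl_few hq (fun ω => hgt F (c r) z' ⌊v * J⌋₊ (fun y => g y r) ω)
        (a := Nu) (b := au) hJ0 (fun ω => (Y ω, R ω))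
      have k9 : CH q ua (fun ω => (hd F c r z' ⌊v * J⌋₊ g Nu ω, (Y ω, R ω))) ≤
          max (au - Nu) 0 * J * Real.log 2 + Real.log 5 := by
        rw [hua]
        exact k8
      linarith
    have k10 : CH q (fun ω => (Ha ω, (ua ω, Y ω))) R ≤ CH q Ha R + CH q (fun ω => (ua ω, Y ω)) R :=
      CH_subadd h0 _ _ _
    have k11 := CH_chain h0 ua Y R
    linarith
  rw [hR] at g11
  have g12 := hFA V z z' (fun y => g y (r + 1)) hLN V₁ φa ψa (fun ω hω => by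
    rw [← hφa ω hω]
    exact hψa ω hω) _ (fun ω => (Ha ω, (ua ω, Y ω)))
    (δ₃ * J + max (au - Nu) 0 * J * Real.log 2 + (2 * Real.log 5 + r * Real.log 9)) (by
      rw [← hqd]
      exact g11)
  rw [← hqd] at g12
  have g13 : CH q (fun ω => ⌊(2 : ℝ) ^ (so * J) *
      hgt F (c (r + 1)) z' ⌊v * J⌋₊ (fun y => g y (r + 1)) ω⌋) (fun ω => (Ha ω, (ua ω, Y ω))) =
      CH q Xo (fun ω => (Ha ω, (ua ω, Y ω))) := by
    rw [hXo]
    rfl
  rw [g13] at g12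
  have g14 : t * J = ((bu - au) * Real.log 2 + tz - d + δ₃ +
    max (au - Nu) 0 * Real.log 2) * J + σ * J := by
    rw [hσ]
    ring
  rw [← hub, ← hua, ← hHb, ← hY, g1, g14]
  linarith [g2, g3, g4, g5, g6, g7, g8, g9, g10, g12, f2]

end Pool.RW37
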