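import Pool.Agent.H37.RW2.Def
import Pool.Agent.H37.RW2.Hts

/-!
# The row of the second place of a pair

`nfy_rowN`: the row `NfY` of `c (r + 1)` over the chain, with the digits `bu` of the height of `c r`,
is the row `RowN`. `rowN_of`: `RowN` from the rows of the raw digits of `c (r + 1)` given the exact
other places, and the numbers of the heights.
-/

set_option autoImplicit false

namespace Pool.RW37

open Finset Real MvPolynomial
open Pool.Agent.H49.Ent Pool.Agent.H32.Dense Pool.STK Pool.KA Pool.KSAT Pool.K2S Pool.PB Pool.GEN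
open Pool.S6C Pool.RCD Pool.LA91 Pool.OWN68 Pool.CHT Pool.AJX
open Pool.GRD (LbP Pb_mono_pos)
open Pool.UNJ (ceI Tub)
open Pool.BFL (Pb)

variable {m J : ℕ}

/-- The heights of one more place. -/
theorem hts_upd (F : Fam m J) (c : ℕ → Fin m) {r₀ r : ℕ} {V : Type} (z' : LnT F → V)
    (W : ℕ) (g : V → ℕ → MvPolynomial (Option (Fin m)) ℝ) (n : ℕ → ℝ) (bu : ℝ) {ω ω' : F.Ω}
    (h1 : hts F c r₀ r z' W g n ω = hts F c r₀ r z' W g n ω')
    (h2 : hd F c r z' W g bu ω = hd F c r z' W g bu ω') :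
    hts F c r₀ (r + 1) z' W g (Function.update n r bu) ω =
      hts F c r₀ (r + 1) z' W g (Function.update n r bu) ω' := by
  funext i
  have h3 := congrFun h1 i
  unfold hts at h3 ⊢
  unfold hd at h2
  by_cases hi : r₀ ≤ i ∧ i < r + 1
  · rw [if_pos hi, if_pos hi]
    by_cases hir : i = r
    · subst hir
      rw [Function.update_self]
      exact h2
    · rw [Function.update_of_ne hir]
      rw [if_pos ⟨hi.1, by omega⟩, if_pos ⟨hi.1, by omega⟩] at h3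
      exact h3
  · rw [if_neg hi, if_neg hi]

/-- The positivity of the events. -/
theorem bas_pos {S : PCl m} {C₀ : ℝ} (htm : TmC S C₀) : Bas S (fun _ F A => 0 < Pe F.p A) :=
  Bas.mono 0 (Pool.GRW.tmc_bas htm one_pos) fun _ _ _ _ h1 => h1.1

/-- **The row `NfY` is the row `RowN`.** -/
theorem nfy_rowN {S : PCl m} {C₀ : ℝ} (htm : TmC S C₀) {c : ℕ → Fin m} {r₀ r K : ℕ}
    {E : ℕ → ℝ} {e₀ v q h δ U bu : ℝ} {rd p n : ℕ → ℝ}
    (H : NfY S c r₀ (r + 1) E e₀ v q h δ U rd p (Function.update n r bu)) (h1 : h ≤ 1)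
    (hδ : 0 ≤ δ) {a b t : ℝ} (ha : p (r + 1) ≤ a) (hab : a ≤ b) (hb : p (r + 1) + q ≤ b)
    (ht : (1 - h) * (b - a) * Real.log 2 + δ + (b - (p (r + 1) + q)) * Real.log 2 < t) :
    RowN S c r₀ r K E e₀ v U rd p n bu a b t := by
  intro e he hle
  have hl2 : 0 < Real.log 2 := Real.log_pos one_lt_two
  have hh : 0 ≤ 1 - h := by linarith
  obtain ⟨σ, hσ⟩ : ∃ σ : ℝ, σ = t - ((1 - h) * (b - a) * Real.log 2 + δ +
    (b - (p (r + 1) + q)) * Real.log 2) := ⟨_, rfl⟩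
  have hσ0 : 0 < σ := by rw [hσ]; linarith
  obtain ⟨J₀, hJ₀⟩ := exists_nat_ge (Real.log 5 / σ)
  rcases le_or_gt a (p (r + 1) + q) with hc | hc
  · refine Bas.mono J₀ ((H e he hle K (a - p (r + 1)) (by linarith) (by linarith)).and
      (bas_pos htm)) ?_
    rintro J hJ F A ⟨hA, hpe⟩ V z z' g hL
    have hq := isLaw_cond F.isLaw hpe
    have h0 := hq.nonneg
    have hJ0 : (0 : ℝ) ≤ J := Nat.cast_nonneg J
    have hJr : (J₀ : ℝ) ≤ J := by exact_mod_cast hJ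
    have g1 : Real.log 5 ≤ σ * J := by
      have := hJ₀.trans hJr
      rwa [div_le_iff₀ hσ0, mul_comm] at this
    have g2 := hA V z z' g hL
    have e1 : p (r + 1) + (a - p (r + 1)) = a := by ring
    have e2 : q - (a - p (r + 1)) = p (r + 1) + q - a := by ring
    rw [e1, e2] at g2
    have g3 := CH_le_add h0 (hd F c (r + 1) z' ⌊v * J⌋₊ g b)
      (hd F c (r + 1) z' ⌊v * J⌋₊ g (p (r + 1) + q))
      (fun ω => (hd F c (r + 1) z' ⌊v * J⌋₊ g a ω, (hd F c r z' ⌊v * J⌋₊ g bu ω,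
        cx F c r₀ r z' ⌊v * J⌋₊ g n U ω)))
    have g4 : CH (Pool.Agent.H49.Ent.cond F.p A True)
        (hd F c (r + 1) z' ⌊v * J⌋₊ g (p (r + 1) + q))
        (fun ω => (hd F c (r + 1) z' ⌊v * J⌋₊ g a ω, (hd F c r z' ⌊v * J⌋₊ g bu ω,
          cx F c r₀ r z' ⌊v * J⌋₊ g n U ω))) ≤
        ((1 - h) * (p (r + 1) + q - a) * Real.log 2 + δ) * J := by
      refine le_trans ?_ g2
      refine CH_mono_cond h0 fun ω ω' _ _ hh => ?_
      have k1 := Prod.ext_iff.mp hh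
      have k2 := Prod.ext_iff.mp k1.2
      have k3 := Prod.ext_iff.mp k2.2
      have k4 := Prod.ext_iff.mp k3.2
      exact Prod.ext k1.1 (Prod.ext k3.1 (Prod.ext (hts_upd F c z' _ g n bu k4.1 k2.1) k4.2))
    have g5 := fl_few hq (fun ω => hgt F (c (r + 1)) z' ⌊v * J⌋₊ (fun y => g y (r + 1)) ω)
      (a := p (r + 1) + q) (b := b) hJ0
      (fun ω => (hd F c (r + 1) z' ⌊v * J⌋₊ g a ω, (hd F c r z' ⌊v * J⌋₊ g bu ω,
        cx F c r₀ r z' ⌊v * J⌋₊ g n U ω)))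
    rw [max_eq_left (by linarith : (0 : ℝ) ≤ b - (p (r + 1) + q))] at g5
    have g6 : (1 - h) * (p (r + 1) + q - a) * Real.log 2 * J ≤
        (1 - h) * (b - a) * Real.log 2 * J :=
      mul_le_mul_of_nonneg_right (mul_le_mul_of_nonneg_right
        (mul_le_mul_of_nonneg_left (by linarith) hh) hl2.le) hJ0
    have g7 : t * J = ((1 - h) * (b - a) * Real.log 2 + δ +
        (b - (p (r + 1) + q)) * Real.log 2) * J + σ * J := by
      rw [hσ]
      ring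
    refine (g3.trans (add_le_add g4 g5)).trans ?_
    rw [g7]
    nlinarith [g6, g1]
  · refine Bas.mono J₀ (bas_pos htm) ?_
    rintro J hJ F A hpe V z z' g hL
    have hq := isLaw_cond F.isLaw hpe
    have hJ0 : (0 : ℝ) ≤ J := Nat.cast_nonneg J
    have hJr : (J₀ : ℝ) ≤ J := by exact_mod_cast hJ
    have g1 : Real.log 5 ≤ σ * J := by
      have := hJ₀.trans hJr
      rwa [div_le_iff₀ hσ0, mul_comm] at this
    have g5 := fl_few hq (fun ω => hgt F (c (r + 1)) z' ⌊v * J⌋₊ (fun y => g y (r + 1)) ω)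
      (a := a) (b := b) hJ0 (fun ω => (hd F c r z' ⌊v * J⌋₊ g bu ω,
        cx F c r₀ r z' ⌊v * J⌋₊ g n U ω))
    rw [max_eq_left (by linarith : (0 : ℝ) ≤ b - a)] at g5
    refine g5.trans ?_
    have g6 : (b - a) * J * Real.log 2 ≤ (b - (p (r + 1) + q)) * J * Real.log 2 :=
      mul_le_mul_of_nonneg_right (mul_le_mul_of_nonneg_right (by linarith) hJ0) hl2.le
    have g7 : t * J = ((1 - h) * (b - a) * Real.log 2 + δ +
        (b - (p (r + 1) + q)) * Real.log 2) * J + σ * J := by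
      rw [hσ]
      ring
    have g8 : 0 ≤ ((1 - h) * (b - a) * Real.log 2 + δ) * J :=
      mul_nonneg (add_nonneg (mul_nonneg (mul_nonneg hh (by linarith)) hl2.le) hδ) hJ0
    rw [g7]
    nlinarith [g6, g1, g8]

/-- **The row of the second place**, from the raw rows and the numbers of the heights. -/
theorem rowN_of {S : PCl m} {C₀ : ℝ} (htm : TmC S C₀) {c : ℕ → Fin m} {r₀ r M K : ℕ}
    (hr : r₀ ≤ r) {wb : ℕ → ℝ} {sn : ℕ → ℝ → ℝ} {n Nl : ℕ → ℝ} {v o U ρ bu q h δ₁ g₀ : ℝ}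
    {E rd : ℕ → ℝ}
    (hN : HtN r₀ (r + 1) M wb sn (Function.update n r bu) Nl v o U ρ) (hU : U < 1)
    (hc : ChL S c r₀ (r + 1) M wb sn) (hq : 0 ≤ q) (hq' : Nl (r + 1) = sn (r + 1) v + q)
    (hp : 0 ≤ sn (r + 1) v) (hg₀ : 0 < g₀)
    (hE : ∀ i, r₀ ≤ i → i ≤ r + 1 → 0 ≤ E i ∧ E i ≤ 1)
    (hpq : sn (r + 1) v + q + E (r + 1) + g₀ ≤ 1)
    (hrd : ∀ i, r₀ ≤ i → i ≤ r + 1 → 0 ≤ rd i ∧ rd i + g₀ ≤ 1)
    (hn : ∀ i, r₀ ≤ i → i < r + 1 → Function.update n r bu i + E i + g₀ ≤ 1)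
    (hraw : RawN S ((range (r + 1)).image c) (c (r + 1)) (sn (r + 1) v) q h δ₁) (hδ₁ : 0 ≤ δ₁)
    (hNn : ∀ i, r₀ ≤ i → i < r + 1 → Nl i ≤ Function.update n r bu i) (h1 : h ≤ 1)
    {a b t : ℝ} (ha : sn (r + 1) v ≤ a) (hab : a ≤ b) (hb : Nl (r + 1) ≤ b)
    (ht : (1 - h) * (b - a) * Real.log 2 + (δ₁ + ∑ i ∈ Finset.Ico r₀ (r + 1), (sn i o - Nl i)) +
      (b - Nl (r + 1)) * Real.log 2 < t) :
    RowN S c r₀ r K E (min (ρ / 8) (g₀ / 2)) v U rd (fun l => sn l v) n bu a b t := by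
  have hwo : v ≤ o := by
    have := (hN.bw 0 (Nat.zero_le _)).1
    rwa [hN.b0] at this
  obtain ⟨τ, hτ⟩ : ∃ τ : ℝ, τ = t - ((1 - h) * (b - a) * Real.log 2 +
    (δ₁ + ∑ i ∈ Finset.Ico r₀ (r + 1), (sn i o - Nl i)) + (b - Nl (r + 1)) * Real.log 2) :=
    ⟨_, rfl⟩
  have hτ0 : 0 < τ := by rw [hτ]; linarith
  have hr2 : (0 : ℝ) < (r + 1 : ℕ) + 1 := by positivity
  obtain ⟨δ₂, hδ₂⟩ : ∃ δ₂ : ℝ, δ₂ = τ / (4 * ((r + 1 : ℕ) + 1)) := ⟨_, rfl⟩
  have hδ₂0 : 0 < δ₂ := by rw [hδ₂]; positivity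
  have hδ₂' : ((r + 1 : ℕ) + 1 : ℝ) * δ₂ = τ / 4 := by
    rw [hδ₂]
    field_simp
  have hsum : 0 ≤ ∑ i ∈ Finset.Ico r₀ (r + 1), (sn i o - Nl i) := by
    refine Finset.sum_nonneg fun i hi => ?_
    obtain ⟨h3, h4⟩ := Finset.mem_Ico.1 hi
    have := hN.top i h3 (by omega)
    linarith [hN.ρ0]
  obtain ⟨u₁, rd₀, k1, k2, -⟩ := hc 0 (Nat.zero_le _)
  rw [hN.b0] at k2
  have hYf := nfy_of htm (c := c) (r₀ := r₀) (r := r + 1) (by omega) (w := v) (o := o) (q := q)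
    (U := U) (h := h) (δ₁ := δ₁) (δ₂ := δ₂)
    (δ := δ₁ + ∑ i ∈ Finset.Ico r₀ (r + 1), (sn i o - Nl i) + τ / 2) (e₁ := ρ / 8) (g₀ := g₀)
    (E := E) (rd := rd) (p := fun l => sn l v) (n := Function.update n r bu)
    (so := fun l => sn l o) (Nl := Nl) hwo hN.o1.le hp hq hg₀ hE hpq hrd hn hU.le hraw
    (k2.base U hN.oU hU) k2.ful
    (by have := hN.ρ0; positivity)
    (fun i h3 h4 => htn_F1 htm hN hc h3 h4 hδ₂0) hq' hNn
    (fun i h3 h4 => by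
      have := hN.top i h3 (by omega)
      show Nl i ≤ sn i o
      linarith [hN.ρ0]) hδ₂0.le
    (by
      have e1 : (((r + 1 : ℕ) : ℝ) + 1) * δ₂ = τ / 4 := hδ₂'
      rw [e1]
      linarith)
  refine nfy_rowN htm hYf h1 (by linarith) ha hab (by rw [← hq']; exact hb) ?_
  rw [← hq']
  have e2 : t = (1 - h) * (b - a) * Real.log 2 +
    (δ₁ + ∑ i ∈ Finset.Ico r₀ (r + 1), (sn i o - Nl i)) + (b - Nl (r + 1)) * Real.log 2 + τ := by
    rw [hτ]
    ring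
  linarith

end Pool.RW37
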